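import Mathlib
import Pool.Agent.H.MP_5c5aaa_pr.A

set_option autoImplicit false

namespace Pool.Agent.Results.MP_5c5aaa_pr.Counter

open MeasureTheory ProbabilityTheory

theorem result : ∃ (Ω : Type) (_ : MeasurableSpace Ω) (P : Measure Ω) (_ : IsProbabilityMeasure P) (X : ℤ × ℤ → Ω → Fin 4),
    (∀ v, Measurable (X v)) ∧
    (∀ u, P.map (fun ω v => X (u + v) ω) = P.map fun ω v => X v ω) ∧
    (∃ k : ℕ, ∀ A B : Set (ℤ × ℤ), (∀ a ∈ A, ∀ b ∈ B, (k : ℝ) ≤ dist a b) →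
      IndepFun (fun ω (v : A) => X v ω) (fun ω (v : B) => X v ω) P) ∧
    (∃ x : ℤ × ℤ → Fin 4, ∀ B : Finset (ℤ × ℤ), 0 < P {ω | ∀ v ∈ B, X v ω = x v}) ∧
    ∀ x : ℤ × ℤ → Fin 4, (∀ B : Finset (ℤ × ℤ), 0 < P {ω | ∀ v ∈ B, X v ω = x v}) →
      ∀ H : AddSubgroup (ℤ × ℤ), H.FiniteIndex → ¬ ∀ v ∈ H, ∀ u, x (u + v) = x u :=
  open Pool.Agent.H.MP_5c5aaa_pr in
  ⟨_, _, P, inferInstance, X, mX, inv, ⟨2, by exact_mod_cast ind⟩, supp, fun x hx H _ => aper x hx H⟩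

end Pool.Agent.Results.MP_5c5aaa_pr.Counter
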